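import Pool.Agent.Helper25_TD.Oracle

/-!
# Squad EFA (MP_f28000_lc): effective maps of r.e. sets which induce self-embeddings of the r.e. degrees

THEOREM (`FinStmt`).  Let `F` map r.e. sets to r.e. sets, `A ≤_T B` iff `F A ≤_T F B` for r.e. `A`, `B`,
and let some `F A` be computable.  If `F (f⁻¹ Y)` is computable from `F Y` uniformly in an index of the
one-one computable function `f` (for every r.e. `Y`), then `F A ≡_T A` for every r.e. `A`.

`Helper25TD`: `chi x n = Part.some (x n).toNat`, `TLE x y = TuringReducible (chi x) (chi y)`,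
`TR x f = Nat.RecursiveIn {chi x} (fun n => f n)` for total `f : ℕ → ℕ`, with the lemmas `TR.prim`,
`TR.comp`, `TR.pair`, `TR.prec`, `TR.rfind`, `TR.of_le`, `TR.to_le`, `TLE.refl`, `TLE.trans`
(file `Helper25_TD/Oracle.lean`, `Functional.lean`).  A computable `g : ℕ → ℕ` satisfies `TR x g`:
`Nat.Partrec.recursiveIn (Partrec.nat_iff.1 hg)`.
-/

set_option autoImplicit false

open Nat.Partrec (Code)
open Pool.Agent.Helper25TD

namespace Pool.Agent.EFA

open Classical in
/-- the characteristic function of a set -/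
noncomputable def bo (A : ℕ → Prop) : ℕ → Bool := fun n => decide (A n)

/-- Turing reducibility of sets -/
def Le (A B : ℕ → Prop) : Prop := TLE (bo A) (bo B)

/-- the finite set with the binary code `j` -/
def fs (j : ℕ) : ℕ → Prop := fun x => Nat.testBit j x = true

/-- `F` induces an order embedding of the r.e. degrees, and the degree of the computable sets is in the range -/
structure Emb (F : (ℕ → Prop) → (ℕ → Prop)) : Prop where
  re : ∀ A, REPred A → REPred (F A)
  iff : ∀ A B, REPred A → REPred B → (Le A B ↔ Le (F A) (F B))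
  zero : ∃ A, REPred A ∧ Computable (bo (F A))

/-- `F (f⁻¹ Y)` is computable from `F Y`, uniformly in an index `c` of the one-one function `f` -/
def Eff (F : (ℕ → Prop) → (ℕ → Prop)) : Prop :=
  ∀ Y, REPred Y → ∃ ψ : ℕ →. ℕ, Nat.RecursiveIn {chi (bo (F Y))} ψ ∧
    ∀ (c : Code) (f : ℕ → ℕ), Function.Injective f → (∀ x, c.eval x = Part.some (f x)) →
      ∀ y, ψ (Nat.pair (Encodable.encode c) y) = Part.some (bo (F fun x => Y (f x)) y).toNat

/-- **REC** (easy).  Images of computable sets are computable.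
PROOF. A computable `R` satisfies `Le R A` for every `A` (the characteristic function is partial recursive, so recursive in
everything: `Nat.Partrec.recursiveIn`), so `Le (F R) (F A)` with `F A` computable; a function recursive in a computable
function is computable (`Nat.RecursiveIn.partrec_of_oracle`).  `Computable (bo R)` (a `Bool` valued function) versus
`Partrec (chi (bo R))`: compose with `Bool.toNat` and with `decide (· = 1)`.  (2): a computable set is r.e. -/
def RecStmt : Prop := ∀ F : (ℕ → Prop) → (ℕ → Prop), Emb F → ∀ R : ℕ → Prop, Computable (bo R) →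
  REPred R ∧ Computable (bo (F R))

/-- **UPP** (medium, uses REC).  `A ≤_T F A`.
PROOF. If `A` is computable: trivial (`Nat.Partrec.recursiveIn`).  Otherwise `F A ≠ F ∅` as sets: `F ∅` is computable (REC), and if
`F A = F ∅` then `Le (F A) (F ∅)`, so `Le A ∅`, so `A` is computable.  Fix `y` with `bo (F A) y ≠ bo (F ∅) y`.
`Y z = (A z.unpair.1 ∧ A z.unpair.2)` is r.e. (REPred of a conjunction: bind of the two semi-decisions) and `Le Y A`
(product of two values of `bo A`).  `f_m x = Nat.pair x m` is injective, with the code `c_m = Code.curry (Code.pair Code.right Code.left) m`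
(`eval_curry`; `encode c_m` is primitive recursive in `m`: `Code.primrec₂_curry`).  `Y ∘ f_m` is `A` if `A m`, and `∅` otherwise.  With `ψ` from `Eff`
for `Y`: `ψ (pair (encode c_m) y)` is the bit `bo (F A) y` if `A m` and the other bit otherwise, so `bo A` is
recursive in `F Y`; `Le (F Y) (F A)` because `Le Y A`. -/
def UppStmt : Prop := ∀ F : (ℕ → Prop) → (ℕ → Prop), Emb F → Eff F → ∀ A : ℕ → Prop, REPred A → Le A (F A)

/-- **KLS** (strong; helper21).  Modulus of continuity at the finite sets (Kreisel, Lacombe, Shoenfield).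
PROOF. `E` = the even numbers; a set `R` with computable characteristic function is `f⁻¹ E` for `f x = 2 x + 1 - R x`.  Recursion theorem: for
`j`, `y` a code `e` with `eval e x = 2 x + 1 - bit_x j` while `evaln x Q (pair (encode e) y)` is `none`
(`Q` a code of `q`), and else search `w = (s, j')` with: `evaln s Q .. ≠ none`, `evaln (s - 1) Q .. = none`,
`j' % 2 ^ s = j % 2 ^ s`, `V j' y ≠` the value of `evaln s Q ..`, and use `j'`. -/
def KlsStmt : Prop := ∀ (G : (ℕ → Prop) → ℕ → Bool) (q : ℕ →. ℕ), Nat.Partrec q →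
  (∀ (c : Code) (f : ℕ → ℕ), Function.Injective f → (∀ x, c.eval x = Part.some (f x)) →
    ∀ y, q (Nat.pair (Encodable.encode c) y) = Part.some (G (fun x => f x % 2 = 0) y).toNat) →
  ∃ V N : ℕ → ℕ → ℕ, Computable₂ V ∧ Computable₂ N ∧ (∀ j y, V j y = (G (fs j) y).toNat) ∧
    ∀ j y j', (∀ x < N j y, Nat.testBit j' x = Nat.testBit j x) → G (fs j') y = G (fs j) y

/-- **SPR** (easy-medium).  A sparse computable sequence.
PROOF. `H t = ∑ w < t, N (unpair w).1 (unpair w).2` is computable (`Computable.nat_rec`), monotone, and `N j y ≤ H (pair j y + 1)`.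
`r 0 = 0`, `r (k + 1) = r k + 2 + H (Nat.pair (2 ^ (r k + 1)) k + 1)`; `Nat.pair` is monotone in both arguments. -/
def SprStmt : Prop := ∀ N : ℕ → ℕ → ℕ, Computable₂ N → ∃ r : ℕ → ℕ, Computable r ∧
  (∀ k, r k + 2 ≤ r (k + 1)) ∧ ∀ k j y, j < 2 ^ (r k + 1) → y ≤ k → N j y ≤ r (k + 1)

/-- **COD** (easy-medium).  The image of `A` under `r`.
PROOF. `i z` = the least `x` with `z ≤ r x` (computable: `ComputablePred`/`rfind`, it exists because `x ≤ r x`); `Y z ↔ r (i z) = z ∧ A (i z)`
(`r` is injective and monotone).  So `Y` is r.e., `Le Y A`; and `A x ↔ Y (r x)`, so `Le A Y`. -/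
def CodStmt : Prop := ∀ r : ℕ → ℕ, Computable r → (∀ k, r k + 2 ≤ r (k + 1)) →
  ∀ A : ℕ → Prop, REPred A → REPred (fun z => ∃ x, A x ∧ r x = z) ∧
    Le A (fun z => ∃ x, A x ∧ r x = z) ∧ Le (fun z => ∃ x, A x ∧ r x = z) A

/-- **CON** (medium).  A discontinuity codes every r.e. set.
PROOF. Let `H` be r.e., `cH` a code with `H m ↔ (eval cH m).Dom ↔ ∃ k, evaln k cH m ≠ none` (`evaln` is monotone in `k`).  Let `f_m x = x` if `x < n₀` or
`evaln x cH m = none`, and `f_m x = g x` otherwise: injective (if `f_m x = x` and `f_m x' = g x'` then `x < x' < g x'`).  It is computable in `(m, x)`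
(`Code.primrec_evaln`), so it has codes `c_m` (`Code.curry`) with `encode c_m` computable in `m`.  If `H m` fails then `Y ∘ f_m = Y`.  If `H m` then `Y ∘ f_m = fs j'`
for some `j'` with `testBit j' x = bo Y x` for `x < n₀` (`Y ∘ f_m` is finite as `Y (g x)` is false).  So the bit `bo (F (Y ∘ f_m)) y`, which is computed by `ψ` of `Eff` for `Y`,
is equal to `bo (F Y) y` iff `H m` fails. -/
def ConStmt : Prop := ∀ F : (ℕ → Prop) → (ℕ → Prop), Eff F → ∀ Y : ℕ → Prop, REPred Y →
  ∀ g : ℕ → ℕ, Computable g → Function.Injective g → (∀ x, x < g x) → (∀ x, ¬ Y (g x)) →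
  ∀ y n₀ : ℕ, (∀ j, (∀ x < n₀, Nat.testBit j x = bo Y x) → bo (F (fs j)) y ≠ bo (F Y) y) →
  ∀ H : ℕ → Prop, REPred H → Le H (F Y)

/-- **CMP** (easy-medium).  Continuity gives a computation.
PROOF. The code `p n = ∑ x < n, 2 ^ x * (bo Y x).toNat` of `Y ∩ [0, n)` is computable from `Y` (`TR.prec`), `testBit (p n) x = (decide (x < n) && bo Y x)`
(induction on `n`), and `(bo Z y).toNat = V (p (r y + 1)) y`. -/
def CmpStmt : Prop := ∀ V : ℕ → ℕ → ℕ, Computable₂ V → ∀ r : ℕ → ℕ, Computable r → ∀ Y Z : ℕ → Prop,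
  (∀ y j, (∀ x, Nat.testBit j x = (decide (x < r y + 1) && bo Y x)) → V j y = (bo Z y).toNat) → Le Z Y

/-- **FIN** (easy-medium, uses REC UPP KLS SPR COD CON CMP).  The theorem.
PROOF. `Eff` for `E` = the even numbers, with `F E` computable (REC): `q = ψ` is partial recursive (`Nat.RecursiveIn.partrec_of_oracle`).  KLS for
`G R y = bo (F R) y` gives `V`, `N`; SPR gives `r`; COD gives `Y`.  Claim `Le (F Y) Y`.  For `y` let `j_y` be the code of `Y ∩ [0, r y + 1)`
(`j_y < 2 ^ (r y + 1)`: `Nat.lt_pow_two_of_testBit`; `r y < x < r (y + 1)` is not in `Y`).  If `V j_y y = bo (F Y) y` for all `y`: CMP.  If it fails for `y`: CON with `g x = r x + 1`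
(`x ≤ r x`; not in the range of `r` because of the gaps), `n₀ = r (y + 1)`: a `j` which agrees with `Y` below `r (y + 1)` agrees with `j_y` below `N j_y y ≤ r (y + 1)`, so
`bo (F (fs j)) y = bo (F (fs j_y)) y ≠ bo (F Y) y`.  So `Le H (F Y)` for all r.e. `H`, in particular `Le (F (F Y)) (F Y)`, so `Le (F Y) Y` by
`Emb.iff`.  Finally `Le (F A) (F Y)` (from `Le A Y`), `Le (F Y) Y`, `Le Y A`. -/
def FinStmt : Prop := ∀ F : (ℕ → Prop) → (ℕ → Prop), Emb F → Eff F → ∀ A : ℕ → Prop, REPred A →
  Le (F A) A ∧ Le A (F A)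

end Pool.Agent.EFA
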